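import Pool.Agent.W_c0up_h14.DefsG

/-!
# MP_c0ce05_co, question 2: vertex weights (section 5 of proofs row 518)

`T` is a set of vertices. The weight of a vertex `x` outside `T` is `2 ^ (claimed edges of the star)
* (3/4) ^ (links inside the star)`, where the star is the set of the edges from `x` to `T` (and `0` if
one of these edges is dead). If the mass of the unions of `m` stars is small, then the sum of the
weights is at most `2 N`.
-/

set_option autoImplicit false

namespace C0q2W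

open scoped Classical
open C0lo C0st

variable {N : ℕ}

/-- the edges from `x` to `T` -/
noncomputable def star (T : Finset (Fin N)) (x : Fin N) : Finset (Sym2 (Fin N)) :=
  T.image (fun h => s(x, h))

/-- the number of the links with both edges in `Z` -/
noncomputable def lnk (P : GP N) (Z : Finset (Sym2 (Fin N))) : ℕ :=
  (P.db.filter (fun d => d.1 ∈ Z ∧ d.2 ∈ Z)).card

/-- the normalised weight of an edge set: `2 ^ |Z|` times its mass -/
noncomputable def nw (P : GP N) (Z : Finset (Sym2 (Fin N))) : ℝ :=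
  if Disjoint Z P.K then 2 ^ (Z ∩ P.C).card * (3 / 4 : ℝ) ^ lnk P Z else 0

theorem nw_eq (P : GP N) (Z : Finset (Sym2 (Fin N))) : nw P Z = 2 ^ Z.card * P.mass Z := by
  unfold nw GP.mass lnk
  split_ifs with h
  · have h1 : Z.card = (Z \ P.C).card + (Z ∩ P.C).card :=
      (Finset.card_sdiff_add_card_inter Z P.C).symm
    have h2 : (2 : ℝ) ^ (Z \ P.C).card * (1 / 2) ^ (Z \ P.C).card = 1 := by
      rw [← mul_pow]; norm_num
    rw [h1, pow_add]
    calc (2 : ℝ) ^ (Z ∩ P.C).card * (3 / 4 : ℝ) ^ (P.db.filter (fun d => d.1 ∈ Z ∧ d.2 ∈ Z)).card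
        = ((2 : ℝ) ^ (Z \ P.C).card * (1 / 2) ^ (Z \ P.C).card) * (2 ^ (Z ∩ P.C).card *
          (3 / 4 : ℝ) ^ (P.db.filter (fun d => d.1 ∈ Z ∧ d.2 ∈ Z)).card) := by
          rw [h2, one_mul]
      _ = _ := by ring
  · rw [mul_zero]

theorem nw_nonneg (P : GP N) (Z : Finset (Sym2 (Fin N))) : 0 ≤ nw P Z := by
  unfold nw
  split_ifs
  · positivity
  · exact le_rfl

theorem nw_empty (P : GP N) : nw P ∅ = 1 := by
  unfold nw lnk
  simp

theorem nw_le (P : GP N) (Z : Finset (Sym2 (Fin N))) : nw P Z ≤ 2 ^ Z.card := by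
  unfold nw
  split_ifs
  · have h1 : (2 : ℝ) ^ (Z ∩ P.C).card ≤ 2 ^ Z.card :=
      pow_le_pow_right₀ (by norm_num) (Finset.card_le_card Finset.inter_subset_left)
    have h2 : (3 / 4 : ℝ) ^ lnk P Z ≤ 1 := pow_le_one₀ (by norm_num) (by norm_num)
    calc (2 : ℝ) ^ (Z ∩ P.C).card * (3 / 4 : ℝ) ^ lnk P Z ≤ 2 ^ Z.card * 1 := by
          apply mul_le_mul h1 h2 (by positivity) (by positivity)
      _ = 2 ^ Z.card := mul_one _
  · positivity

/-- The weight of a disjoint union without cross links. -/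
theorem nw_union {P : GP N} {Z S : Finset (Sym2 (Fin N))} (h1 : Disjoint Z S)
    (h2 : ∀ d ∈ P.db, ¬ (d.1 ∈ Z ∧ d.2 ∈ S) ∧ ¬ (d.1 ∈ S ∧ d.2 ∈ Z)) :
    nw P Z * nw P S ≤ nw P (Z ∪ S) := by
  by_cases hZ : Disjoint Z P.K
  · by_cases hS : Disjoint S P.K
    · have hU : Disjoint (Z ∪ S) P.K := Finset.disjoint_union_left.2 ⟨hZ, hS⟩
      unfold nw
      rw [if_pos hZ, if_pos hS, if_pos hU]
      have hc : ((Z ∪ S) ∩ P.C).card = (Z ∩ P.C).card + (S ∩ P.C).card := by
        rw [Finset.union_inter_distrib_right, Finset.card_union_of_disjoint]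
        exact h1.mono Finset.inter_subset_left Finset.inter_subset_left
      have hl : lnk P (Z ∪ S) ≤ lnk P Z + lnk P S := by
        unfold lnk
        refine le_trans (Finset.card_le_card ?_) (Finset.card_union_le _ _)
        intro d hd
        rw [Finset.mem_filter] at hd
        obtain ⟨hd0, hd1, hd2⟩ := hd
        rw [Finset.mem_union, Finset.mem_filter, Finset.mem_filter]
        rcases Finset.mem_union.1 hd1 with a1 | a1 <;> rcases Finset.mem_union.1 hd2 with a2 | a2
        · exact Or.inl ⟨hd0, a1, a2⟩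
        · exact absurd ⟨a1, a2⟩ (h2 d hd0).1
        · exact absurd ⟨a1, a2⟩ (h2 d hd0).2
        · exact Or.inr ⟨hd0, a1, a2⟩
      calc (2 : ℝ) ^ (Z ∩ P.C).card * (3 / 4 : ℝ) ^ lnk P Z *
            (2 ^ (S ∩ P.C).card * (3 / 4 : ℝ) ^ lnk P S)
          = 2 ^ ((Z ∪ S) ∩ P.C).card * (3 / 4 : ℝ) ^ (lnk P Z + lnk P S) := by
            rw [hc, pow_add, pow_add]; ring
        _ ≤ 2 ^ ((Z ∪ S) ∩ P.C).card * (3 / 4 : ℝ) ^ lnk P (Z ∪ S) := by
            apply mul_le_mul_of_nonneg_left _ (by positivity)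
            exact pow_le_pow_of_le_one (by norm_num) (by norm_num) hl
    · have : nw P S = 0 := by unfold nw; rw [if_neg hS]
      rw [this, mul_zero]
      exact nw_nonneg _ _
  · have : nw P Z = 0 := by unfold nw; rw [if_neg hZ]
    rw [this, zero_mul]
    exact nw_nonneg _ _

/-- the edges which are, or are linked with, an edge of `Z` -/
noncomputable def nbh (P : GP N) (Z : Finset (Sym2 (Fin N))) : Finset (Sym2 (Fin N)) :=
  Z ∪ ((P.db.filter (fun d => d.1 ∈ Z)).image Prod.snd ∪
    (P.db.filter (fun d => d.2 ∈ Z)).image Prod.fst)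

theorem card_nbh {P : GP N} {Dl : ℕ} (hP : P.Valid Dl) (Z : Finset (Sym2 (Fin N))) :
    (nbh P Z).card ≤ (2 + Dl) * Z.card := by
  have h1 : ((P.db.filter (fun d => d.1 ∈ Z)).image Prod.snd).card ≤ Z.card := by
    refine le_trans Finset.card_image_le ?_
    refine Finset.card_le_card_of_injOn Prod.fst ?_ ?_
    · intro d hd
      exact (Finset.mem_filter.1 hd).2
    · intro d hd d' hd' h
      exact hP.fn d (Finset.mem_filter.1 hd).1 d' (Finset.mem_filter.1 hd').1 h
  have h2 : ((P.db.filter (fun d => d.2 ∈ Z)).image Prod.fst).card ≤ Dl * Z.card := by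
    refine le_trans Finset.card_image_le ?_
    have h3 : P.db.filter (fun d => d.2 ∈ Z) =
        Z.biUnion (fun g => P.db.filter (fun d => d.2 = g)) := by
      ext d
      simp only [Finset.mem_filter, Finset.mem_biUnion]
      constructor
      · rintro ⟨a1, a2⟩
        exact ⟨d.2, a2, a1, rfl⟩
      · rintro ⟨g, a1, a2, a3⟩
        exact ⟨a2, a3 ▸ a1⟩
    rw [h3]
    refine le_trans Finset.card_biUnion_le ?_
    calc ∑ g ∈ Z, (P.db.filter (fun d => d.2 = g)).card ≤ ∑ _g ∈ Z, Dl :=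
          Finset.sum_le_sum fun g _ => hP.indeg g
      _ = Dl * Z.card := by rw [Finset.sum_const, smul_eq_mul, mul_comm]
  unfold nbh
  refine le_trans (Finset.card_union_le _ _) ?_
  have h4 := Finset.card_union_le ((P.db.filter (fun d => d.1 ∈ Z)).image Prod.snd)
    ((P.db.filter (fun d => d.2 ∈ Z)).image Prod.fst)
  nlinarith

/-- the vertices whose star is connected with `Z` -/
noncomputable def bad (P : GP N) (Z : Finset (Sym2 (Fin N))) : Finset (Fin N) :=
  Finset.univ.filter (fun x => ∃ e ∈ nbh P Z, x ∈ e)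

theorem card_bad {P : GP N} {Dl : ℕ} (hP : P.Valid Dl) (Z : Finset (Sym2 (Fin N))) :
    (bad P Z).card ≤ 2 * ((2 + Dl) * Z.card) := by
  have h1 : bad P Z ⊆ (nbh P Z).biUnion (fun e => Finset.univ.filter (fun x => x ∈ e)) := by
    intro x hx
    obtain ⟨e, he, hxe⟩ := (Finset.mem_filter.1 hx).2
    exact Finset.mem_biUnion.2 ⟨e, he, Finset.mem_filter.2 ⟨Finset.mem_univ _, hxe⟩⟩
  have h2 : ∀ e : Sym2 (Fin N), (Finset.univ.filter (fun x => x ∈ e)).card ≤ 2 := by
    intro e
    induction e with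
    | _ a b =>
      refine le_trans (Finset.card_le_card (t := {a, b}) ?_) Finset.card_le_two
      intro x hx
      have := (Finset.mem_filter.1 hx).2
      rw [Sym2.mem_iff] at this
      simpa using this
  refine le_trans (Finset.card_le_card h1) (le_trans Finset.card_biUnion_le ?_)
  calc ∑ e ∈ nbh P Z, (Finset.univ.filter (fun x => x ∈ e)).card ≤ ∑ _e ∈ nbh P Z, 2 :=
        Finset.sum_le_sum fun e _ => h2 e
    _ = 2 * (nbh P Z).card := by rw [Finset.sum_const, smul_eq_mul, mul_comm]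
    _ ≤ 2 * ((2 + Dl) * Z.card) := Nat.mul_le_mul_left _ (card_nbh hP Z)

theorem nw_star_union {P : GP N} {T : Finset (Fin N)} {Z : Finset (Sym2 (Fin N))} {x : Fin N}
    (hx : x ∉ bad P Z) : nw P Z * nw P (star T x) ≤ nw P (Z ∪ star T x) := by
  have hx' : ∀ e ∈ nbh P Z, x ∉ e := by
    intro e he hxe
    exact hx (Finset.mem_filter.2 ⟨Finset.mem_univ _, e, he, hxe⟩)
  have hst : ∀ e ∈ star T x, x ∈ e := by
    intro e he
    obtain ⟨h, _, rfl⟩ := Finset.mem_image.1 he
    exact Sym2.mem_mk_left _ _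
  refine nw_union ?_ ?_
  · rw [Finset.disjoint_left]
    intro e he he2
    exact hx' e (Finset.mem_union_left _ he) (hst e he2)
  · intro d hd
    constructor
    · rintro ⟨a1, a2⟩
      refine hx' d.2 ?_ (hst _ a2)
      exact Finset.mem_union_right _ (Finset.mem_union_left _
        (Finset.mem_image_of_mem _ (Finset.mem_filter.2 ⟨hd, a1⟩)))
    · rintro ⟨a1, a2⟩
      refine hx' d.1 ?_ (hst _ a1)
      exact Finset.mem_union_right _ (Finset.mem_union_right _
        (Finset.mem_image_of_mem _ (Finset.mem_filter.2 ⟨hd, a2⟩)))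

/-- One step. -/
theorem step {P : GP N} {Dl : ℕ} (hP : P.Valid Dl) (T : Finset (Fin N))
    (Z : Finset (Sym2 (Fin N))) {M : ℕ} (hM : Z.card ≤ M) :
    nw P Z * (∑ x : {x // x ∉ T}, nw P (star T x) - 2 * ((2 + Dl) * M) * 2 ^ T.card) ≤
      ∑ x : {x // x ∉ T}, nw P (Z ∪ star T x) := by
  have h1 : ∑ x : {x // x ∉ T}, (if (x : Fin N) ∈ bad P Z then 0 else nw P (star T x)) * nw P Z ≤
      ∑ x : {x // x ∉ T}, nw P (Z ∪ star T x) := by
    refine Finset.sum_le_sum fun x _ => ?_
    split_ifs with hx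
    · rw [zero_mul]
      exact nw_nonneg _ _
    · rw [mul_comm]
      exact nw_star_union hx
  have h2 : ∑ x : {x // x ∉ T}, nw P (star T x) ≤
      ∑ x : {x // x ∉ T}, (if (x : Fin N) ∈ bad P Z then 0 else nw P (star T x)) +
        2 * ((2 + Dl) * M) * 2 ^ T.card := by
    have h3 : ∀ x : {x // x ∉ T}, nw P (star T x) ≤
        (if (x : Fin N) ∈ bad P Z then 0 else nw P (star T x)) +
          (if (x : Fin N) ∈ bad P Z then (2 : ℝ) ^ T.card else 0) := by
      intro x
      split_ifs with hx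
      · rw [zero_add]
        refine le_trans (nw_le _ _) (pow_le_pow_right₀ (by norm_num) ?_)
        exact Finset.card_image_le
      · rw [add_zero]
    refine le_trans (Finset.sum_le_sum fun x _ => h3 x) ?_
    rw [Finset.sum_add_distrib]
    refine add_le_add le_rfl ?_
    rw [← Finset.sum_filter, Finset.sum_const, nsmul_eq_mul]
    refine mul_le_mul_of_nonneg_right ?_ (by positivity)
    have h4 : (Finset.univ.filter (fun x : {x // x ∉ T} => (x : Fin N) ∈ bad P Z)).card ≤
        (bad P Z).card := by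
      refine Finset.card_le_card_of_injOn (fun x => (x : Fin N)) ?_ ?_
      · intro x hx
        exact (Finset.mem_filter.1 hx).2
      · intro x _ y _ h
        exact Subtype.ext h
    have h5 : (bad P Z).card ≤ 2 * ((2 + Dl) * M) :=
      le_trans (card_bad hP Z) (Nat.mul_le_mul_left _ (Nat.mul_le_mul_left _ hM))
    exact_mod_cast h4.trans h5
  rw [← Finset.sum_mul] at h1
  refine le_trans ?_ h1
  rw [mul_comm]
  refine mul_le_mul_of_nonneg_right ?_ (nw_nonneg _ _)
  linarith

/-- The union of the stars of a tuple. -/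
noncomputable def stars (T : Finset (Fin N)) {m : ℕ} (x : Fin m → {x // x ∉ T}) :
    Finset (Sym2 (Fin N)) :=
  Finset.univ.biUnion (fun i => star T (x i))

theorem stars_zero (T : Finset (Fin N)) (x : Fin 0 → {x // x ∉ T}) : stars T x = ∅ := by
  unfold stars
  simp

theorem stars_cons (T : Finset (Fin N)) {m : ℕ} (a : {x // x ∉ T}) (x : Fin m → {x // x ∉ T}) :
    stars T (Fin.cons a x : Fin (m + 1) → {x // x ∉ T}) = star T a ∪ stars T x := by
  unfold stars
  ext e
  simp only [Finset.mem_biUnion, Finset.mem_univ, true_and, Finset.mem_union]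
  rw [Fin.exists_fin_succ]
  simp

/-- Many steps. -/
theorem steps {P : GP N} {Dl : ℕ} (hP : P.Valid Dl) (T : Finset (Fin N)) {M : ℕ}
    (hW : 0 ≤ ∑ x : {x // x ∉ T}, nw P (star T x) - 2 * ((2 + Dl) * M) * 2 ^ T.card) (m : ℕ) :
    ∀ Z : Finset (Sym2 (Fin N)), Z.card + m * T.card ≤ M →
      nw P Z * (∑ x : {x // x ∉ T}, nw P (star T x) - 2 * ((2 + Dl) * M) * 2 ^ T.card) ^ m ≤
        ∑ x : Fin m → {x // x ∉ T}, nw P (Z ∪ stars T x) := by
  induction m with
  | zero =>
    intro Z _
    rw [pow_zero, mul_one, Fintype.sum_unique, stars_zero, Finset.union_empty]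
  | succ m ih =>
    intro Z hZ
    set w := ∑ x : {x // x ∉ T}, nw P (star T x) - 2 * ((2 + Dl) * M) * 2 ^ T.card with hw
    have hcard : Z.card ≤ M := le_trans (Nat.le_add_right _ _) hZ
    rw [← (Fin.consEquiv (fun _ : Fin (m + 1) => {x // x ∉ T})).sum_comp, Fintype.sum_prod_type]
    have h1 : ∀ a : {x // x ∉ T}, nw P (Z ∪ star T a) * w ^ m ≤
        ∑ x : Fin m → {x // x ∉ T},
          nw P (Z ∪ stars T ((Fin.consEquiv (fun _ : Fin (m + 1) => {x // x ∉ T})) (a, x))) := by
      intro a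
      refine le_trans (ih (Z ∪ star T a) ?_) (le_of_eq ?_)
      · have h2 := Finset.card_union_le Z (star T (a : Fin N))
        have h3 : (star T (a : Fin N)).card ≤ T.card := Finset.card_image_le
        nlinarith
      · refine Finset.sum_congr rfl fun x _ => ?_
        congr 1
        rw [Finset.union_assoc]
        exact congrArg (Z ∪ ·) (stars_cons T a x).symm
    refine le_trans ?_ (Finset.sum_le_sum fun a _ => h1 a)
    rw [← Finset.sum_mul, pow_succ', ← mul_assoc]
    exact mul_le_mul_of_nonneg_right (step hP T Z hcard) (pow_nonneg hW m)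

/-- **The sum of the vertex weights.** -/
theorem weights {P : GP N} {Dl : ℕ} (hP : P.Valid Dl) (T : Finset (Fin N)) (m : ℕ) {B : ℝ}
    (h1 : 2 * (2 * ((2 + Dl) * (m * T.card)) * 2 ^ T.card) ≤ N) (hN : 1 ≤ N)
    (hB : B < (3 / 2) ^ m)
    (hH : ∑ x : Fin m → {x // x ∉ T}, nw P (stars T x) ≤ B * (N : ℝ) ^ m) :
    ∑ x : {x // x ∉ T}, nw P (star T x) ≤ 2 * N := by
  by_contra hcon
  rw [not_le] at hcon
  have h2 : (2 * (2 * ((2 + Dl) * (m * T.card)) * 2 ^ T.card) : ℝ) ≤ N := by exact_mod_cast h1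
  have hN' : (1 : ℝ) ≤ N := by exact_mod_cast hN
  have hpos : 3 / 2 * (N : ℝ) ≤ ∑ x : {x // x ∉ T}, nw P (star T x) -
      2 * ((2 + Dl) * ((m * T.card : ℕ) : ℝ)) * 2 ^ T.card := by
    push_cast
    linarith
  have h3 := steps hP T (M := m * T.card) (le_trans (by positivity) hpos) m ∅
    (by rw [Finset.card_empty, zero_add])
  rw [nw_empty, one_mul] at h3
  simp only [Finset.empty_union] at h3
  have h4 : (3 / 2 * (N : ℝ)) ^ m ≤ B * (N : ℝ) ^ m :=
    le_trans (pow_le_pow_left₀ (by positivity) hpos m) (le_trans h3 hH)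
  rw [mul_pow] at h4
  have h5 : (3 / 2 : ℝ) ^ m ≤ B := le_of_mul_le_mul_right h4 (by positivity)
  linarith

end C0q2W
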