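import Pool.Agent.W_c0q2_h20.Asm
import Pool.Agent.W_c0q2_h3.Wt

/-!
# MP_c0ce05_co, question 2: section 5 of proofs row 518
-/

set_option autoImplicit false

namespace C0q2

open scoped Classical
open C0lo C0st

variable {N : ℕ}

theorem wtP_eq_nw (P : GP N) (Q : Finset (Sym2 (Fin N))) : wtP P Q = C0q2W.nw P Q := rfl

theorem starQ_eq_star (T : Finset (Fin N)) (x : Fin N) : starQ T x = C0q2W.star T x := rfl

/-- the data of the class of stars -/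
def SmallT (N K : ℕ) : Type := {T : Finset (Fin N) // T.card ≤ K}

noncomputable instance (N K : ℕ) : Fintype (SmallT N K) := by
  unfold SmallT
  infer_instance

theorem card_SmallT (N K : ℕ) : Fintype.card (SmallT N K) ≤ (N + 1) ^ K := by
  have h : Fintype.card (SmallT N K) =
      ((Finset.univ : Finset (Finset (Fin N))).filter (fun R => R.card ≤ K)).card := by
    rw [← Fintype.card_subtype]
    exact Fintype.card_congr (Equiv.refl _)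
  rw [h]
  exact card_small_le N K

/-- the edge set of a leaf -/
noncomputable def EWT {K : ℕ} (T : SmallT N K) (x : Fin N) : Finset (Sym2 (Fin N)) :=
  if x ∈ T.1 then ∅ else starQ T.1 x

/-- from the class to `weights` -/
theorem WT_sum {P : GP N} {K m : ℕ} {B : ℝ} (hN : 0 < N) (T : SmallT N K)
    (h : ∑ W : Fin m → Fin N, (∏ _i : Fin m, (1 / (N : ℝ))) *
      wtP P (Finset.univ.biUnion (fun i => EWT T (W i))) ≤ B) :
    ∑ x : Fin m → {x // x ∉ T.1}, C0q2W.nw P (C0q2W.stars T.1 x) ≤ B * (N : ℝ) ^ m := by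
  have hN' : (0 : ℝ) < N := by exact_mod_cast hN
  have h1 : ∑ W : Fin m → Fin N, wtP P (Finset.univ.biUnion (fun i => EWT T (W i))) ≤
      B * (N : ℝ) ^ m := by
    rw [← Finset.mul_sum, Finset.prod_const, Finset.card_univ, Fintype.card_fin] at h
    have h2 : (1 / (N : ℝ)) ^ m * (N : ℝ) ^ m = 1 := by
      rw [← mul_pow, one_div, inv_mul_cancel₀ hN'.ne', one_pow]
    have h3 := mul_le_mul_of_nonneg_right h (show (0 : ℝ) ≤ (N : ℝ) ^ m by positivity)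
    calc ∑ W : Fin m → Fin N, wtP P (Finset.univ.biUnion (fun i => EWT T (W i)))
        = (1 / (N : ℝ)) ^ m * (∑ W : Fin m → Fin N,
            wtP P (Finset.univ.biUnion (fun i => EWT T (W i)))) * (N : ℝ) ^ m := by
          rw [mul_comm ((1 / (N : ℝ)) ^ m), mul_assoc, h2, mul_one]
      _ ≤ B * (N : ℝ) ^ m := h3
  refine le_trans ?_ h1
  have h4 : ∀ x : Fin m → {x // x ∉ T.1}, C0q2W.nw P (C0q2W.stars T.1 x) =
      wtP P (Finset.univ.biUnion (fun i => EWT T ((x i : {x // x ∉ T.1}) : Fin N))) := by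
    intro x
    rw [wtP_eq_nw]
    congr 1
    unfold C0q2W.stars
    refine Finset.biUnion_congr rfl fun i _ => ?_
    unfold EWT
    rw [if_neg (x i).2]
    rfl
  rw [Finset.sum_congr rfl (fun x _ => h4 x)]
  have hinj : Function.Injective
      (fun (x : Fin m → {x // x ∉ T.1}) => (fun i => ((x i : {x // x ∉ T.1}) : Fin N))) := by
    intro x y hxy
    funext i
    exact Subtype.ext (congrFun hxy i)
  rw [← Finset.sum_image (f := fun W : Fin m → Fin N =>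
      wtP P (Finset.univ.biUnion (fun i => EWT T (W i)))) (s := Finset.univ)
      (g := fun (x : Fin m → {x // x ∉ T.1}) => (fun i => ((x i : {x // x ∉ T.1}) : Fin N)))
      (fun x _ y _ hxy => hinj hxy)]
  exact Finset.sum_le_sum_of_subset_of_nonneg (Finset.subset_univ _)
    (fun W _ _ => wtP_nonneg P _)

theorem WT_num1 {q : ℕ} {L l : ℝ} (h : Big N q L l) :
    64 * ((N : ℝ) + 1) ^ ⌊0.4 * L⌋₊ < (3 / 2 : ℝ) ^ ⌈L ^ 2⌉₊ := by
  have hL := h.L_large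
  have hL0 : (0 : ℝ) < L := lt_of_lt_of_le (by norm_num) hL
  have hL3 : (1000 : ℝ) ≤ L := le_trans (by norm_num) hL
  have hN1 : (1 : ℝ) ≤ N := by exact_mod_cast h.N_pos
  have hK : ((⌊0.4 * L⌋₊ : ℕ) : ℝ) ≤ 0.4 * L := Nat.floor_le (by positivity)
  have hm : L ^ 2 ≤ ((⌈L ^ 2⌉₊ : ℕ) : ℝ) := Nat.le_ceil _
  have h1 : ((N : ℝ) + 1) ^ ⌊0.4 * L⌋₊ ≤ (2 : ℝ) ^ ((L + 1) * (0.4 * L)) := by
    have h2 : (N : ℝ) + 1 ≤ (2 : ℝ) ^ (L + 1) := by
      rw [Real.rpow_add (by norm_num), h.two_pow_L, Real.rpow_one]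
      linarith
    calc ((N : ℝ) + 1) ^ ⌊0.4 * L⌋₊ ≤ ((2 : ℝ) ^ (L + 1)) ^ ⌊0.4 * L⌋₊ :=
          pow_le_pow_left₀ (by positivity) h2 _
      _ = (2 : ℝ) ^ ((L + 1) * ((⌊0.4 * L⌋₊ : ℕ) : ℝ)) := by
          rw [Real.rpow_mul (by norm_num), Real.rpow_natCast]
      _ ≤ (2 : ℝ) ^ ((L + 1) * (0.4 * L)) := by
          apply Real.rpow_le_rpow_of_exponent_le (by norm_num)
          exact mul_le_mul_of_nonneg_left hK (by linarith)
  have h3 : (2 : ℝ) ^ (L ^ 2 / 2) ≤ (3 / 2 : ℝ) ^ ⌈L ^ 2⌉₊ := by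
    have h4 : (2 : ℝ) ^ (1 / 2 : ℝ) ≤ 3 / 2 := by
      rw [← Real.sqrt_eq_rpow]
      rw [Real.sqrt_le_left (by norm_num)]
      norm_num
    calc (2 : ℝ) ^ (L ^ 2 / 2) ≤ (2 : ℝ) ^ ((1 / 2 : ℝ) * ((⌈L ^ 2⌉₊ : ℕ) : ℝ)) := by
          apply Real.rpow_le_rpow_of_exponent_le (by norm_num)
          linarith
      _ = ((2 : ℝ) ^ (1 / 2 : ℝ)) ^ ⌈L ^ 2⌉₊ := by
          rw [Real.rpow_mul (by norm_num), Real.rpow_natCast]
      _ ≤ (3 / 2 : ℝ) ^ ⌈L ^ 2⌉₊ := pow_le_pow_left₀ (by positivity) h4 _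
  have h5 : (64 : ℝ) = (2 : ℝ) ^ (6 : ℝ) := by norm_num
  calc 64 * ((N : ℝ) + 1) ^ ⌊0.4 * L⌋₊ ≤ (2 : ℝ) ^ (6 : ℝ) * (2 : ℝ) ^ ((L + 1) * (0.4 * L)) := by
        rw [h5]
        exact mul_le_mul_of_nonneg_left h1 (by positivity)
    _ = (2 : ℝ) ^ (6 + (L + 1) * (0.4 * L)) := by rw [Real.rpow_add (by norm_num)]
    _ < (2 : ℝ) ^ (L ^ 2 / 2) := by
        apply Real.rpow_lt_rpow_of_exponent_lt (by norm_num)
        nlinarith
    _ ≤ _ := h3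

theorem WT_num2 {q : ℕ} {L l : ℝ} (h : Big N q L l) {Dl t : ℕ} (hD : (Dl : ℝ) ≤ 10 * L ^ 2)
    (ht : (t : ℝ) ≤ 0.4 * L) :
    2 * (2 * ((2 + Dl) * (⌈L ^ 2⌉₊ * t)) * 2 ^ t) ≤ N := by
  have hL := h.L_large
  have hL0 : (0 : ℝ) < L := lt_of_lt_of_le (by norm_num) hL
  have hL3 : (1000 : ℝ) ≤ L := le_trans (by norm_num) hL
  have hm : ((⌈L ^ 2⌉₊ : ℕ) : ℝ) ≤ 2 * L ^ 2 := by
    have := Nat.ceil_lt_add_one (show (0 : ℝ) ≤ L ^ 2 by positivity)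
    nlinarith
  have hD2 : (2 : ℝ) + Dl ≤ 11 * L ^ 2 := by nlinarith
  have htL : (t : ℝ) ≤ L := by linarith
  have h2t : (2 : ℝ) ^ t ≤ (2 : ℝ) ^ (0.4 * L) := by
    rw [← Real.rpow_natCast]
    exact Real.rpow_le_rpow_of_exponent_le (by norm_num) ht
  have hLl : L = (2 : ℝ) ^ l := by
    rw [h.l_def, Real.rpow_logb (by norm_num) (by norm_num) hL0]
  have hL5 : L ^ 5 = (2 : ℝ) ^ (l * 5) := by
    rw [Real.rpow_mul (by norm_num), ← hLl]
    exact (Real.rpow_natCast L 5).symm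
  have h6 : ((⌈L ^ 2⌉₊ : ℕ) : ℝ) * t ≤ 2 * L ^ 2 * L :=
    mul_le_mul hm htL (by positivity) (by positivity)
  have h7 : ((2 : ℝ) + Dl) * (((⌈L ^ 2⌉₊ : ℕ) : ℝ) * t) ≤ 11 * L ^ 2 * (2 * L ^ 2 * L) :=
    mul_le_mul hD2 h6 (by positivity) (by positivity)
  have h8 : 2 * (2 * (((2 : ℝ) + Dl) * (((⌈L ^ 2⌉₊ : ℕ) : ℝ) * t)) * 2 ^ t) ≤
      2 * (2 * (11 * L ^ 2 * (2 * L ^ 2 * L)) * (2 : ℝ) ^ (0.4 * L)) := by
    apply mul_le_mul_of_nonneg_left _ (by norm_num)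
    apply mul_le_mul _ h2t (by positivity) (by positivity)
    exact mul_le_mul_of_nonneg_left h7 (by norm_num)
  have h9 : 2 * (2 * (11 * L ^ 2 * (2 * L ^ 2 * L)) * (2 : ℝ) ^ (0.4 * L)) ≤ (2 : ℝ) ^ L := by
    have e1 : 2 * (2 * (11 * L ^ 2 * (2 * L ^ 2 * L)) * (2 : ℝ) ^ (0.4 * L)) =
        88 * (L ^ 5 * (2 : ℝ) ^ (0.4 * L)) := by ring
    have e2 : (88 : ℝ) ≤ (2 : ℝ) ^ (7 : ℝ) := by norm_num
    rw [e1, hL5, ← Real.rpow_add (by norm_num)]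
    calc 88 * (2 : ℝ) ^ (l * 5 + 0.4 * L) ≤ (2 : ℝ) ^ (7 : ℝ) * (2 : ℝ) ^ (l * 5 + 0.4 * L) :=
          mul_le_mul_of_nonneg_right e2 (by positivity)
      _ = (2 : ℝ) ^ (7 + (l * 5 + 0.4 * L)) := by rw [← Real.rpow_add (by norm_num)]
      _ ≤ (2 : ℝ) ^ L := by
          apply Real.rpow_le_rpow_of_exponent_le (by norm_num)
          have h10 := h.l_sm
          have h11 := h.l_big
          norm_num at h10 h11 ⊢
          linarith
  rw [h.two_pow_L] at h9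
  have h12 := h8.trans h9
  exact_mod_cast h12

/-- **Section 5** -/
theorem S_WT_holds : S_WT := by
  intro N q L l hB
  have hL := hB.L_large
  have hL0 : (0 : ℝ) < L := lt_of_lt_of_le (by norm_num) hL
  have hN' : (0 : ℝ) < N := by exact_mod_cast hB.N_pos
  refine (Sys_class (N := N) (D := SmallT N ⌊0.4 * L⌋₊) (Om := Fin N) ⌈L ^ 2⌉₊
    (fun T x => EWT T x) (fun _ _ => 1 / (N : ℝ)) (fun _ _ => by positivity)
    (fun _ => ?_) (c := 1 / 64) (by norm_num)).mono le_rfl ?_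
  · rw [Finset.sum_const, Finset.card_univ, Fintype.card_fin, nsmul_eq_mul]
    rw [mul_one_div_cancel hN'.ne']
  · intro P hP hV T hT
    obtain ⟨Dl, hval, hDl⟩ := hV
    have hTK : T.card ≤ ⌊0.4 * L⌋₊ := Nat.le_floor hT
    have h1 := WT_sum hB.N_pos ⟨T, hTK⟩ (hP ⟨T, hTK⟩)
    have h2 : (Fintype.card (SmallT N ⌊0.4 * L⌋₊) : ℝ) / (1 / 64) < (3 / 2 : ℝ) ^ ⌈L ^ 2⌉₊ := by
      refine lt_of_le_of_lt ?_ (WT_num1 hB)
      have h3 : (Fintype.card (SmallT N ⌊0.4 * L⌋₊) : ℝ) ≤ ((N : ℝ) + 1) ^ ⌊0.4 * L⌋₊ := by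
        exact_mod_cast card_SmallT N ⌊0.4 * L⌋₊
      linarith
    have h4 := C0q2W.weights hval T ⌈L ^ 2⌉₊ (WT_num2 hB hDl hT) hB.N_pos h2 h1
    refine le_trans (le_of_eq ?_) h4
    have h5 : (Finset.univ \ T : Finset (Fin N)) = Finset.univ.filter (fun x => x ∉ T) := by
      ext x
      simp
    rw [h5]
    rw [← Finset.sum_subtype (Finset.univ.filter (fun x => x ∉ T)) (p := fun x => x ∉ T)
      (by intro x; simp) (fun x => C0q2W.nw P (C0q2W.star T x))]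
    rfl

end C0q2
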